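import Pool.Agent.H20.ER3.Lib

/-!
# MP_816b90_co: Operation C and contraction commute
-/

set_option autoImplicit false

namespace Pool.Agent.H60.ER3

open Pool.Agent.H48.ER Pool.Agent.H52.ER2 Pool.Agent.H66.ER2 Pool.Agent.H20.ER3

theorem cn_ctr {V : Type} {G : SimpleGraph V} {p q : V} {F : Set V} (hp : p ∉ F) (hq : q ∉ F) :
    Cn (ctr G p q) F ↔ Cn G F := by
  have key : ∀ u ∈ F, ∀ w ∈ F, (ctr G p q).Adj u w ↔ G.Adj u w := by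
    intro u hu w hw
    exact ctr_adj_of_ne (fun e => hp (e ▸ hu)) (fun e => hq (e ▸ hu)) (fun e => hp (e ▸ hw))
      (fun e => hq (e ▸ hw))
  constructor
  · intro h X hX hne hcl
    exact h X hX hne fun u hu w hw ha => hcl u hu w hw ((key u (hX hu) w hw).1 ha)
  · intro h X hX hne hcl
    exact h X hX hne fun u hu w hw ha => hcl u hu w hw ((key u (hX hu) w hw).2 ha)

theorem sees_ctr {V : Type} {G : SimpleGraph V} {R : Set V} {p q : V} (hp : p ∉ R) (hq : q ∉ R)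
    (hpq : p ≠ q) (F : Set V) (a : V) : Sees (ctr G p q) R F a ↔
    a ≠ q ∧ (Sees G R F a ∨ (a = p ∧ Sees G R F q)) := by
  constructor
  · rintro ⟨h1, h2, h3, f, hf, ha⟩
    have hpF : p ∉ F := fun h => hp (h2 h)
    have hqF : q ∉ F := fun h => hq (h2 h)
    have h3' := (cn_ctr hpF hqF).1 h3
    have haq : a ≠ q := ha.2.1
    refine ⟨haq, ?_⟩
    rcases ha.2.2.2 with h | ⟨h, h'⟩ | ⟨h, h'⟩
    · exact Or.inl ⟨h1, h2, h3', f, hf, h⟩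
    · exact Or.inr ⟨h, hq, h2, h3', f, hf, h'⟩
    · exact (hpF (h ▸ hf)).elim
  · rintro ⟨haq, ⟨h1, h2, h3, f, hf, ha⟩ | ⟨rfl, h1, h2, h3, f, hf, ha⟩⟩
    · have hpF : p ∉ F := fun h => hp (h2 h)
      have hqF : q ∉ F := fun h => hq (h2 h)
      exact ⟨h1, h2, (cn_ctr hpF hqF).2 h3, f, hf, ha.ne, haq, fun e => hqF (e ▸ hf), Or.inl ha⟩
    · have hpF : a ∉ F := fun h => hp (h2 h)
      have hqF : q ∉ F := fun h => hq (h2 h)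
      exact ⟨hp, h2, (cn_ctr hpF hqF).2 h3, f, hf, fun e => hpF (e ▸ hf), haq,
        fun e => hqF (e ▸ hf), Or.inr (Or.inl ⟨rfl, ha⟩)⟩

theorem pf_CA : U_CA := by
  intro V G R p q hp hq hpq
  ext x y
  have hleft : ∀ a b : V ⊕ Set V, ((OC G R).Adj a b ↔ (∀ r ∈ R, a ≠ Sum.inl r) ∧
    (∀ r ∈ R, b ≠ Sum.inl r) ∧ mAdj G R a b) := fun a b => Iff.rfl
  have hc : (OC (ctr G p q) R).Adj x y ↔ (∀ r ∈ R, x ≠ Sum.inl r) ∧
    (∀ r ∈ R, y ≠ Sum.inl r) ∧ mAdj (ctr G p q) R x y := Iff.rfl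
  rw [hc, ctr_adj, hleft, hleft, hleft]
  rcases x with a | F <;> rcases y with b | F'
  · -- two vertices
    have e1 : mAdj (ctr G p q) R (Sum.inl a) (Sum.inl b) ↔ (ctr G p q).Adj a b := Iff.rfl
    have e2 : ∀ u v : V, mAdj G R (Sum.inl u) (Sum.inl v) ↔ G.Adj u v := fun _ _ => Iff.rfl
    rw [e1, ctr_adj, e2, e2, e2]
    have i1 : ∀ u v : V, ((Sum.inl u : V ⊕ Set V) ≠ Sum.inl v) ↔ u ≠ v := fun u v =>
      ⟨fun h e => h (by rw [e]), fun h e => h (Sum.inl.inj e)⟩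
    have i2 : ∀ u v : V, ((Sum.inl u : V ⊕ Set V) = Sum.inl v) ↔ u = v := fun u v =>
      ⟨fun e => Sum.inl.inj e, fun e => by rw [e]⟩
    have i3 : ∀ u : V, (∀ r ∈ R, (Sum.inl u : V ⊕ Set V) ≠ Sum.inl r) ↔ u ∉ R := fun u =>
      ⟨fun h hu => h u hu rfl, fun h r hr e => h (Sum.inl.inj e ▸ hr)⟩
    rw [i1, i1, i1, i2, i2, i3, i3, i3]
    constructor
    · rintro ⟨h1, h2, h3, h4, h5, h6 | ⟨h6, h7⟩ | ⟨h6, h7⟩⟩
      · exact ⟨h3, h4, h5, Or.inl ⟨h1, h2, h6⟩⟩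
      · exact ⟨h3, h4, h5, Or.inr (Or.inl ⟨h6, hq, h2, h7⟩)⟩
      · exact ⟨h3, h4, h5, Or.inr (Or.inr ⟨h6, h1, hq, h7⟩)⟩
    · rintro ⟨h3, h4, h5, ⟨h1, h2, h6⟩ | ⟨h6, h1, h2, h7⟩ | ⟨h6, h1, h2, h7⟩⟩
      · exact ⟨h1, h2, h3, h4, h5, Or.inl h6⟩
      · exact ⟨h6 ▸ hp, h2, h3, h4, h5, Or.inr (Or.inl ⟨h6, h7⟩)⟩
      · exact ⟨h1, h6 ▸ hp, h3, h4, h5, Or.inr (Or.inr ⟨h6, h7⟩)⟩
  · have e1 : mAdj (ctr G p q) R (Sum.inl a) (Sum.inr F') ↔ Sees (ctr G p q) R F' a := Iff.rfl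
    have e2 : ∀ u : V, mAdj G R (Sum.inl u) (Sum.inr F') ↔ Sees G R F' u := fun _ => Iff.rfl
    rw [e1, sees_ctr hp hq hpq, e2, e2]
    constructor
    · rintro ⟨h1, h2, h3, h4 | ⟨h4, h5⟩⟩
      · exact ⟨Sum.inl_ne_inr, fun e => h3 (Sum.inl.inj e), Sum.inr_ne_inl, Or.inl ⟨h1, h2, h4⟩⟩
      · refine ⟨Sum.inl_ne_inr, fun e => h3 (Sum.inl.inj e), Sum.inr_ne_inl,
          Or.inr (Or.inl ⟨by rw [h4], fun r hr e => hq (Sum.inl.inj e ▸ hr), h2, h5⟩)⟩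
    · rintro ⟨_, h2, _, ⟨h3, h4, h5⟩ | ⟨h3, h4, h5, h6⟩ | ⟨h3, _⟩⟩
      · exact ⟨h3, h4, fun e => h2 (by rw [e]), Or.inl h5⟩
      · have h3' : a = p := Sum.inl.inj h3
        subst h3'
        exact ⟨fun r hr e => hp (Sum.inl.inj e ▸ hr), h5, hpq, Or.inr ⟨rfl, h6⟩⟩
      · cases h3
  · have e1 : mAdj (ctr G p q) R (Sum.inr F) (Sum.inl b) ↔ Sees (ctr G p q) R F b := Iff.rfl
    have e2 : ∀ u : V, mAdj G R (Sum.inr F) (Sum.inl u) ↔ Sees G R F u := fun _ => Iff.rfl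
    rw [e1, sees_ctr hp hq hpq, e2, e2]
    constructor
    · rintro ⟨h1, h2, h3, h4 | ⟨h4, h5⟩⟩
      · exact ⟨Sum.inr_ne_inl, Sum.inr_ne_inl, fun e => h3 (Sum.inl.inj e), Or.inl ⟨h1, h2, h4⟩⟩
      · refine ⟨Sum.inr_ne_inl, Sum.inr_ne_inl, fun e => h3 (Sum.inl.inj e),
          Or.inr (Or.inr ⟨by rw [h4], h1, fun r hr e => hq (Sum.inl.inj e ▸ hr), h5⟩)⟩
    · rintro ⟨_, _, h2, ⟨h3, h4, h5⟩ | ⟨h3, _⟩ | ⟨h3, h4, h5, h6⟩⟩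
      · exact ⟨h3, h4, fun e => h2 (by rw [e]), Or.inl h5⟩
      · cases h3
      · have h3' : b = p := Sum.inl.inj h3
        subst h3'
        exact ⟨h4, fun r hr e => hp (Sum.inl.inj e ▸ hr), hpq, Or.inr ⟨rfl, h6⟩⟩
  · have e1 : ∀ G' : SimpleGraph V, ¬ mAdj G' R (Sum.inr F) (Sum.inr F') := fun _ h => h
    constructor
    · rintro ⟨_, _, h⟩; exact (e1 _ h).elim
    · rintro ⟨_, _, _, ⟨_, _, h⟩ | ⟨h, _⟩ | ⟨h, _⟩⟩
      · exact (e1 _ h).elim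
      · cases h
      · cases h

end Pool.Agent.H60.ER3
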