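import Pool.Agent.H20.ER3.Lib

/-!
# MP_816b90_co: Operation C, rule E
-/

set_option autoImplicit false

namespace Pool.Agent.H60.ER3

open Pool.Agent.H48.ER Pool.Agent.H52.ER2 Pool.Agent.H66.ER2 Pool.Agent.H20.ER3

theorem pf_GE (hGA : U_GA) : U_GE := by
  intro V G R n x y X hE hX hn hx hy hint
  rcases Nat.eq_zero_or_pos n with h0 | h0
  · subst h0; exact ⟨0, rfl⟩
  have hn2 : 2 ≤ n := by omega
  obtain ⟨g, hg, g0, gn, hXs⟩ := IP.pf hX
  have hmem : ∀ i, i ≤ n → g i ∈ X := fun i hi => by rw [hXs]; exact mem_seg (Nat.zero_le _) hi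
  have hin : ∀ i, 0 < i → i < n → InR R (g i) := by
    intro i h1 h2
    rcases hint (g i) (hmem i h2.le) with h | h | h
    · exfalso
      have := hg.inj i 0 h2.le (Nat.zero_le _) (h.trans g0.symm)
      omega
    · exfalso
      have := hg.inj i n h2.le le_rfl (h.trans gn.symm)
      omega
    · exact h
  have hxi : ∃ c, x = Sum.inl c := by
    obtain ⟨r, hr, e⟩ := hin 1 (by omega) (by omega)
    have ha : (MG G R).Adj (g 1) (g 0) := (hg.adj 1 0 (by omega) (by omega)).2 (Or.inr rfl)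
    rw [e] at ha
    obtain ⟨a, ha1, _⟩ := inR_adj hr ha
    exact ⟨a, g0.symm.trans ha1⟩
  have hyi : ∃ d, y = Sum.inl d := by
    obtain ⟨r, hr, e⟩ := hin (n - 1) (by omega) (by omega)
    have ha : (MG G R).Adj (g (n - 1)) (g n) :=
      (hg.adj (n - 1) n (by omega) (by omega)).2 (Or.inl (by omega))
    rw [e] at ha
    obtain ⟨a, ha1, _⟩ := inR_adj hr ha
    exact ⟨a, gn.symm.trans ha1⟩
  obtain ⟨c, rfl⟩ := hxi
  obtain ⟨d, rfl⟩ := hyi
  have hrt : rt X = ∅ := by
    ext F
    constructor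
    · intro hF
      rcases hint (Sum.inr F) hF with h | h | h
      · cases h
      · cases h
      · exact (not_inR_root h).elim
    · intro h; exact h.elim
  obtain ⟨x', y', X', e1, e2, e3, hip⟩ := (hGA V G R n).2 _ _ _ hX hrt
  have e1' : c = x' := Sum.inl.inj e1
  have e2' : d = y' := Sum.inl.inj e2
  subst e1'; subst e2'
  refine hE n c d X' hip ?_ ?_ hn ?_
  · intro h; exact hx (InR.inl_iff.2 h)
  · intro h; exact hy (InR.inl_iff.2 h)
  · intro w hw
    have hw' : Sum.inl w ∈ X := by rw [e3]; exact ⟨w, hw, rfl⟩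
    rcases hint _ hw' with h | h | h
    · exact Or.inl (Sum.inl.inj h)
    · exact Or.inr (Or.inl (Sum.inl.inj h))
    · exact Or.inr (Or.inr (InR.inl_iff.1 h))

end Pool.Agent.H60.ER3
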