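import Pool.Agent.H20.ER3.Lib

/-!
# MP_816b90_co: holes of the mixed graph
-/

set_option autoImplicit false

namespace Pool.Agent.H60.ER3

open Pool.Agent.H48.ER Pool.Agent.H52.ER2 Pool.Agent.H66.ER2 Pool.Agent.H20.ER3

/-- rotation of a minimal odd hole such that the apex is a root -/
theorem rot_mh (hROT : T_ROT) {V : Type} {o : Prop} {G : SimpleGraph V} {R : Set V} {n : ℕ}
    {x y c : V ⊕ Set V} {X : Set (V ⊕ Set V)} (h : MH o G R n x y c X) {F : Set V}
    (hF : F ∈ rt (insert c X)) : ∃ x' y' X', MH o G R n x' y' (Sum.inr F) X' := by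
  rcases hF with hF | hF
  · have e : Sum.inr F = c := hF
    rw [e]
    exact ⟨x, y, X, h⟩
  · obtain ⟨u', v', R', h1, h2, h3, h4, h5, h6⟩ := hROT _ (MG G R) n x y c X h.hs.ip h.hs.two
      h.hs.nm h.hs.l h.hs.r h.hs.int (Sum.inr F) hF
    refine ⟨u', v', R', ⟨h1, h.hs.two, h2, h4, h5, h6⟩, h.odd, ?_, ?_⟩
    · rw [h3]; exact h.al
    · intro n' x' y' c' X' k1 k2 k3
      rw [h3]
      exact h.mn n' x' y' c' X' k1 k2 k3

theorem pf_HM (hHB : U_HB) (hHC : U_HC) (hGA : U_GA) (hROT : T_ROT) : U_HM := by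
  intro V _ o G R hG hE hA n x y c X hX hal
  by_contra hodd
  rw [Nat.not_even_iff_odd] at hodd
  obtain ⟨n, x, y, c, X, hM⟩ := exists_mh hX hodd hal
  by_cases hne : (rt (insert c X)).Nonempty
  · obtain ⟨F, hF⟩ := hne
    obtain ⟨x', y', X', hM'⟩ := rot_mh hROT hM hF
    obtain ⟨F', hF', ht⟩ := hHB V o G R F n x' y' X' hE hM'
    by_cases ho : o
    · have hs := hM'.al.2 ho
      have e : F' = F := hs (Or.inr hF') (Or.inl rfl)
      subst e
      exact hM'.hs.nm hF'
    · have e : o = False := propext ⟨ho, False.elim⟩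
      subst e
      exact hHC V G R F F' n x' y' X' hE (hA ho) hM' hF' ht
  · rw [Set.not_nonempty_iff_eq_empty] at hne
    have hr : rt X = ∅ := by
      apply Set.eq_empty_of_subset_empty
      rw [← hne]
      exact rt_mono (Set.subset_insert _ _)
    obtain ⟨x', y', X', e1, e2, e3, hip⟩ := (hGA V G R n).2 _ _ _ hM.hs.ip hr
    have hc : ∃ c', c = Sum.inl c' := by
      rcases c with c | F
      · exact ⟨c, rfl⟩
      · exfalso
        have : F ∈ rt (insert (Sum.inr F) X) := Or.inl rfl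
        rw [hne] at this
        exact this
    obtain ⟨c', rfl⟩ := hc
    subst e1; subst e2
    have hev := hG n x' y' c' X' hip hM.hs.two (fun h => hM.hs.nm (by rw [e3]; exact ⟨c', h, rfl⟩))
      hM.hs.l hM.hs.r (fun w hw ha => by
        have hw' : Sum.inl w ∈ X := by rw [e3]; exact ⟨w, hw, rfl⟩
        rcases hM.hs.int _ hw' ha with h | h
        · exact Or.inl (Sum.inl.inj h)
        · exact Or.inr (Sum.inl.inj h))
    exact (Nat.not_even_iff_odd.2 hM.odd) hev

end Pool.Agent.H60.ER3
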