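import Pool.Agent.H60.ER3.PBase

/-!
# MP_816b90_co: adjacency in prisms, a path between two roots
-/

set_option autoImplicit false

namespace Pool.Agent.H60.ER3

open Pool.Agent.H48.ER Pool.Agent.H52.ER2 Pool.Agent.H66.ER2 Pool.Agent.H20.ER3

section

variable {W : Type} {M : SimpleGraph W} {n : Fin 3 → ℕ} {g : Fin 3 → ℕ → W}

theorem adj_same (h : PI M n g) {i : Fin 3} {k x : ℕ} (hk : k ≤ n i) (hx : x ≤ n i) :
    M.Adj (g i k) (g i x) ↔ k + 1 = x ∨ x + 1 = k := by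
  rw [h.adj i i k x hk hx]
  constructor
  · rintro (⟨_, h⟩ | ⟨h, _⟩)
    · exact h
    · exact (h rfl).elim
  · intro h; exact Or.inl ⟨rfl, h⟩

theorem adj_diff (h : PI M n g) {i j : Fin 3} {k x : ℕ} (hij : i ≠ j) (hk : k ≤ n i)
    (hx : x ≤ n j) : M.Adj (g i k) (g j x) ↔ (k = 0 ∧ x = 0) ∨ (k = n i ∧ x = n j) := by
  rw [h.adj i j k x hk hx]
  constructor
  · rintro (⟨h, _⟩ | ⟨_, h⟩)
    · exact (hij h).elim
    · exact h
  · intro h; exact Or.inr ⟨hij, h⟩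

theorem adj_int (h : PI M n g) {i j : Fin 3} {k x : ℕ} (hij : i ≠ j) (hk : 0 < k)
    (hk' : k < n i) (hx : x ≤ n j) : ¬ M.Adj (g i k) (g j x) := by
  rw [adj_diff h hij hk'.le hx]
  omega

end

/-- a vertex outside of `R` which is not adjacent to a root has no neighbour in the root -/
theorem no_nb {V : Type} {G : SimpleGraph V} {R F : Set V} {d : V} (hF : F ⊆ R) (hC : Cn G F)
    (hd : d ∉ R) (h : ¬ (MG G R).Adj (Sum.inr F) (Sum.inl d)) : ∀ f ∈ F, ¬ G.Adj d f :=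
  fun f hf ha => h ⟨hd, hF, hC, f, hf, ha⟩

end Pool.Agent.H60.ER3
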