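import Pool.Agent.H20.ER3.Lib

/-!
# MP_816b90_co: two touching roots of a minimal odd prism
-/

set_option autoImplicit false

namespace Pool.Agent.H60.ER3

open Pool.Agent.H48.ER Pool.Agent.H52.ER2 Pool.Agent.H66.ER2 Pool.Agent.H20.ER3

theorem eqi {W : Type} {M : SimpleGraph W} {n : Fin 3 → ℕ} {g : Fin 3 → ℕ → W} (h : PI M n g)
    {i j : Fin 3} {k l : ℕ} (hk : k ≤ n i) (hl : l ≤ n j) : g i k = g j l ↔ i = j ∧ k = l := by
  constructor
  · exact h.inj i j k l hk hl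
  · rintro ⟨rfl, rfl⟩; rfl

/-- a root of a prism is a connected subset of `R` -/
theorem root_pi {V : Type} {G : SimpleGraph V} {R F : Set V} {n : Fin 3 → ℕ}
    {g : Fin 3 → ℕ → V ⊕ Set V} (h : PI (MG G R) n g) {i : Fin 3} {k : ℕ} (hk : k ≤ n i)
    (e : g i k = Sum.inr F) : F ⊆ R ∧ Cn G F := by
  have hp := h.pos i
  have : ∃ w, (MG G R).Adj (Sum.inr F) w := by
    by_cases h0 : k < n i
    · refine ⟨g i (k + 1), ?_⟩
      rw [← e, h.adj i i k (k + 1) hk h0]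
      exact Or.inl ⟨rfl, Or.inl rfl⟩
    · refine ⟨g i (k - 1), ?_⟩
      rw [← e, h.adj i i k (k - 1) hk (by omega)]
      exact Or.inl ⟨rfl, Or.inr (by omega)⟩
  obtain ⟨w, hw⟩ := this
  obtain ⟨a, _, ha⟩ := root_adj hw
  exact ⟨ha.2.1, ha.2.2.1⟩

/-- parity of a path of the prism whose ends are the only vertices of the path which see one of two
touching roots -/
theorem gp_use (hGP : U_GP) (hGU : U_GU) {V : Type} {G : SimpleGraph V} {R F F' : Set V}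
    {n : Fin 3 → ℕ} {g : Fin 3 → ℕ → V ⊕ Set V} (hH : HMs False G R) (h : MP False G R n g)
    {i j : Fin 3} {k l : ℕ} (hk : k ≤ n i) (hl : l ≤ n j) (e1 : g i k = Sum.inr F)
    (e2 : g j l = Sum.inr F') (ht : Tch G F F') {m : ℕ} {x y : V ⊕ Set V} {X : Set (V ⊕ Set V)}
    (hX : IP (MG G R) m x y X) (hs : X ⊆ vI n g) (hm : m ≠ 1)
    (hn : ∀ w ∈ X, ((MG G R).Adj (g i k) w ∨ (MG G R).Adj (g j l) w) ↔ w = x ∨ w = y) :
    Even m := by
  obtain ⟨hF, hC⟩ := root_pi h.pi hk e1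
  obtain ⟨hF', hC'⟩ := root_pi h.pi hl e2
  obtain ⟨_, g2, g3⟩ := hGU V G R F F' hF hF' hC hC' ht
  refine hGP V False G R (F ∪ F') m x y X hH hX hm ?_ ⟨?_, fun h => h.elim⟩
  · intro w hw
    rw [g2, ← e1, ← e2]
    exact hn w hw
  · refine g3 (vI n g) _ h.al.1 ?_ ?_ (Set.insert_subset_insert hs)
    · rw [← e1]; exact mem_vI hk
    · rw [← e2]; exact mem_vI hl

theorem seg_sub_vI {W : Type} {n : Fin 3 → ℕ} {g : Fin 3 → ℕ → W} {i : Fin 3} {k l : ℕ}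
    (hl : l ≤ n i) : seg (g i) k l ⊆ vI n g := by
  rintro w ⟨x, _, hx, rfl⟩
  exact mem_vI (hx.trans hl)

end Pool.Agent.H60.ER3
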