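import Pool.Agent.H60.ER3.PAdj

/-!
# MP_816b90_co: two touching roots in the interior of the same rung
-/

set_option autoImplicit false

namespace Pool.Agent.H60.ER3

open Pool.Agent.H48.ER Pool.Agent.H52.ER2 Pool.Agent.H66.ER2 Pool.Agent.H20.ER3

theorem pf_Q1 (hQA : U_QA) (hPS : U_PS) (hGP : U_GP) (hGU : U_GU) (hGW : U_GW) (hPR : U_PR)
    (hCL : U_CL) : U_Q1 := by
  intro V _ G R F F' n g k l hE hA hH h hk hkl hln e1 e2 ht
  have hpi := h.pi
  have hkn : k < n 0 := by omega
  have o0 := h.odd 0
  rw [Nat.odd_iff] at o0
  obtain ⟨hF, hC⟩ := root_pi hpi hkn.le e1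
  obtain ⟨hF', hC'⟩ := root_pi hpi hln.le e2
  -- roots are not adjacent
  have hk2 : k + 2 ≤ l := by
    by_contra hc
    have : l = k + 1 := by omega
    subst this
    have ha : (MG G R).Adj (g 0 k) (g 0 (k + 1)) := (adj_same hpi hkn.le hln.le).2 (Or.inl rfl)
    rw [e1, e2] at ha
    exact mg_rr ha
  have hns : ∀ x, x ≤ n 0 → ¬ (k + 1 = x ∨ x + 1 = k) → ¬ (MG G R).Adj (Sum.inr F) (g 0 x) := by
    intro x hx hne
    rw [← e1, adj_same hpi hkn.le hx]
    exact hne
  have hns' : ∀ x, x ≤ n 0 → ¬ (l + 1 = x ∨ x + 1 = l) → ¬ (MG G R).Adj (Sum.inr F') (g 0 x) := by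
    intro x hx hne
    rw [← e2, adj_same hpi hln.le hx]
    exact hne
  by_cases hpar : Odd (l - k)
  · rw [Nat.odd_iff] at hpar
    have hip := hPS _ (MG G R) n g 0 (k + 1) (l - 1) hpi (by omega) (by omega)
    by_cases h1 : l - 1 - (k + 1) = 1
    · -- contact lemma
      obtain ⟨c, c', m, f1, f2, f3, f4, f5, _⟩ := hQA V False G R F n g k hE h hk hkn e1
      obtain ⟨d, d', m', f1', f2', f3', f4', f5', _⟩ :=
        hQA V False G R F' n g l hE h (by omega) hln e2
      have hl3 : l = k + 3 := by omega
      subst hl3
      have f1'' : g 0 (k + 2) = Sum.inl d := f1'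
      have f2'' : g 0 (k + 4) = Sum.inl d' := f2'
      have adjl : ∀ a b u v, a ≤ n 0 → b ≤ n 0 → g 0 a = Sum.inl u → g 0 b = Sum.inl v →
          (G.Adj u v ↔ a + 1 = b ∨ b + 1 = a) := by
        intro a b u v ha hb hu hv
        rw [← adj_same hpi ha hb, hu, hv]
        exact mg_ll.symm
      refine hCL V G R F F' m m' c c' d d' hE hA hF hF' f3.1 f4.1 f3'.1 f4'.1 f5 f5' ?_ ?_ ?_ ?_ ?_
        ?_ ?_ ?_ ?_ ht
      · exact (adjl _ _ _ _ (by omega) (by omega) f2 f1'').2 (Or.inl rfl)
      · intro e
        have : g 0 (k - 1) = g 0 (k + 4) := by rw [f1, f2'', e]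
        rw [eqi hpi (by omega) (by omega)] at this
        omega
      · rw [adjl _ _ _ _ (by omega) (by omega) f1 f2]; omega
      · rw [adjl _ _ _ _ (by omega) (by omega) f1 f1'']; omega
      · rw [adjl _ _ _ _ (by omega) (by omega) f1 f2'']; omega
      · rw [adjl _ _ _ _ (by omega) (by omega) f2 f2'']; omega
      · rw [adjl _ _ _ _ (by omega) (by omega) f1'' f2'']; omega
      · intro f hf
        refine ⟨no_nb hF hC f3'.1 ?_ f hf, no_nb hF hC f4'.1 ?_ f hf⟩
        · rw [← f1'']; exact hns _ (by omega) (by omega)
        · rw [← f2'']; exact hns _ (by omega) (by omega)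
      · intro f hf
        refine ⟨no_nb hF' hC' f3.1 ?_ f hf, no_nb hF' hC' f4.1 ?_ f hf⟩
        · rw [← f1]; exact hns' _ (by omega) (by omega)
        · rw [← f2]; exact hns' _ (by omega) (by omega)
    · have := gp_use hGP hGU hH h hkn.le hln.le e1 e2 ht hip (seg_sub_vI (by omega)) h1 (by
        rintro w ⟨x, hx0, hx, rfl⟩
        rw [adj_same hpi hkn.le (by omega), adj_same hpi hln.le (by omega),
          eqi hpi (by omega) (by omega), eqi hpi (by omega) (by omega)]
        constructor
        · rintro ((h | h) | (h | h))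
          · exact Or.inl ⟨rfl, by omega⟩
          · omega
          · omega
          · exact Or.inr ⟨rfl, by omega⟩
        · rintro (⟨_, h⟩ | ⟨_, h⟩)
          · exact Or.inl (Or.inl (by omega))
          · exact Or.inr (Or.inr (by omega)))
      rw [Nat.even_iff] at this
      omega
  · rw [Nat.not_odd_iff_even, Nat.even_iff] at hpar
    obtain ⟨_, g2, g3⟩ := hGU V G R F F' hF hF' hC hC' ht
    have hD : ∀ w, (MG G R).Adj (Sum.inr (F ∪ F')) w ↔
        (MG G R).Adj (g 0 k) w ∨ (MG G R).Adj (g 0 l) w := by
      intro w; rw [g2, e1, e2]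
    -- the new root is not on the prism
    have hDn : ∀ i x, x ≤ n i → Sum.inr (F ∪ F') ≠ g i x := by
      intro i x hx e
      have h1 := (hD (g 0 (k + 1))).2 (Or.inl ((adj_same hpi hkn.le (by omega)).2 (Or.inl rfl)))
      have h2 := (hD (g 0 (k - 1))).2
        (Or.inl ((adj_same hpi hkn.le (by omega)).2 (Or.inr (by omega))))
      have h3 := (hD (g 0 (l + 1))).2 (Or.inr ((adj_same hpi hln.le (by omega)).2 (Or.inl rfl)))
      rw [e] at h1 h2 h3
      by_cases hi : i = 0
      · subst hi
        rw [adj_same hpi hx (by omega)] at h1 h2 h3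
        omega
      · exact adj_int hpi (Ne.symm hi) (by omega) (by omega) hx h1.symm
    have hD0 : ∀ x, x ≤ n 0 → ((MG G R).Adj (Sum.inr (F ∪ F')) (g 0 x) ↔
        (k + 1 = x ∨ x + 1 = k) ∨ (l + 1 = x ∨ x + 1 = l)) := by
      intro x hx
      rw [hD, adj_same hpi hkn.le hx, adj_same hpi hln.le hx]
    have hDj : ∀ j x, j ≠ 0 → x ≤ n j → ¬ (MG G R).Adj (Sum.inr (F ∪ F')) (g j x) := by
      intro j x hj hx
      rw [hD]
      rintro (h | h)
      · exact adj_int hpi (Ne.symm hj) hk hkn hx h
      · exact adj_int hpi (Ne.symm hj) (by omega) hln hx h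
    -- the new rung
    let m := n 0 - (l - k)
    have hmdef : m = n 0 - (l - k) := rfl
    let q : ℕ → V ⊕ Set V := fun x => if x < k then g 0 x else if x = k then Sum.inr (F ∪ F') else
      g 0 (x + (l - k))
    have q1 : ∀ x, x < k → q x = g 0 x := fun x hx => by simp only [q, hx, if_true]
    have q2 : q k = Sum.inr (F ∪ F') := by simp only [q, lt_irrefl, if_false, if_true]
    have q3 : ∀ x, k < x → q x = g 0 (x + (l - k)) := fun x hx => by
      have h1 : ¬ x < k := by omega
      have h2 : ¬ x = k := by omega
      simp only [q, h1, h2, if_false]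
    have hq : PF (MG G R) m q := by
      constructor
      · intro i j hi hj e
        rcases lt_trichotomy i k with hi' | hi' | hi' <;> rcases lt_trichotomy j k with hj' | hj' | hj'
        · rw [q1 i hi', q1 j hj', eqi hpi (by omega) (by omega)] at e
          exact e.2
        · subst hj'
          rw [q1 i hi', q2] at e
          exact absurd e.symm (hDn 0 i (by omega))
        · rw [q1 i hi', q3 j hj', eqi hpi (by omega) (by omega)] at e
          omega
        · subst hi'
          rw [q1 j hj', q2] at e
          exact absurd e (hDn 0 j (by omega))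
        · omega
        · subst hi'
          rw [q3 j hj', q2] at e
          exact absurd e (hDn 0 _ (by omega))
        · rw [q3 i hi', q1 j hj', eqi hpi (by omega) (by omega)] at e
          omega
        · subst hj'
          rw [q3 i hi', q2] at e
          exact absurd e.symm (hDn 0 _ (by omega))
        · rw [q3 i hi', q3 j hj', eqi hpi (by omega) (by omega)] at e
          omega
      · intro i j hi hj
        rcases lt_trichotomy i k with hi' | hi' | hi' <;> rcases lt_trichotomy j k with hj' | hj' | hj'
        · rw [q1 i hi', q1 j hj', adj_same hpi (by omega) (by omega)]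
        · subst hj'
          rw [q1 i hi', q2, SimpleGraph.adj_comm, hD0 i (by omega)]
          omega
        · rw [q1 i hi', q3 j hj', adj_same hpi (by omega) (by omega)]
          omega
        · subst hi'
          rw [q1 j hj', q2, hD0 j (by omega)]
          omega
        · subst hi'
          subst hj'
          constructor
          · intro h; exact absurd h (SimpleGraph.irrefl _)
          · omega
        · subst hi'
          rw [q3 j hj', q2, hD0 _ (by omega)]
          omega
        · rw [q3 i hi', q1 j hj', adj_same hpi (by omega) (by omega)]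
          omega
        · subst hj'
          rw [q3 i hi', q2, SimpleGraph.adj_comm, hD0 _ (by omega)]
          omega
        · rw [q3 i hi', q3 j hj', adj_same hpi (by omega) (by omega)]
          omega
    have hnew := hPR _ (MG G R) n g m q hpi (by omega) hq (by
      intro j x y hj hx hy
      rcases lt_trichotomy x k with hx' | hx' | hx'
      · rw [q1 x hx']
        refine ⟨fun e => hj ((eqi hpi (by omega) hy).1 e).1.symm, ?_⟩
        rw [adj_diff hpi (Ne.symm hj) (by omega) hy]
        omega
      · subst hx'
        rw [q2]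
        refine ⟨fun e => hDn j y hy e, ?_⟩
        constructor
        · intro h; exact absurd h (hDj j y hj hy)
        · omega
      · rw [q3 x hx']
        refine ⟨fun e => hj ((eqi hpi (by omega) hy).1 e).1.symm, ?_⟩
        rw [adj_diff hpi (Ne.symm hj) (by omega) hy]
        omega)
    -- the vertices of the new prism
    have hv : ∀ w ∈ vI (Function.update n 0 m) (Function.update g 0 q), w = Sum.inr (F ∪ F') ∨
        ∃ i x, x ≤ n i ∧ (i = 0 → x ≠ k ∧ x ≠ l) ∧ w = g i x := by
      rintro w ⟨i, x, hx, rfl⟩
      by_cases hi : i = 0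
      · subst hi
        rw [Function.update_self] at hx
        rw [Function.update_self]
        rcases lt_trichotomy x k with hx' | hx' | hx'
        · rw [q1 x hx']
          exact Or.inr ⟨0, x, by omega, fun _ => ⟨by omega, by omega⟩, rfl⟩
        · subst hx'
          exact Or.inl q2
        · rw [q3 x hx']
          exact Or.inr ⟨0, x + (l - k), by omega, fun _ => ⟨by omega, by omega⟩, rfl⟩
      · rw [Function.update_of_ne hi] at hx
        rw [Function.update_of_ne hi]
        exact Or.inr ⟨i, x, hx, fun h => absurd h hi, rfl⟩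
    have hle := h.mn _ _ hnew (by
      intro i
      by_cases hi : i = 0
      · subst hi
        rw [Function.update_self, Nat.odd_iff]
        omega
      · rw [Function.update_of_ne hi]
        exact h.odd i) ⟨g3 (vI n g) _ h.al.1 (by rw [← e1]; exact mem_vI hkn.le)
          (by rw [← e2]; exact mem_vI hln.le) (by
            intro w hw
            rcases hv w hw with rfl | ⟨i, x, hx, _, rfl⟩
            · exact Set.mem_insert _ _
            · exact Set.mem_insert_of_mem _ (mem_vI hx)), fun h => h.elim⟩
    have hlt := (hGW V (vI n g) (vI (Function.update n 0 m) (Function.update g 0 q)) F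
      (show Sum.inr F ∈ vI n g by rw [← e1]; exact mem_vI hkn.le)).2.1 F'
      (show Sum.inr F' ∈ vI n g by rw [← e2]; exact mem_vI hln.le) (by
        intro e
        have : g 0 k = g 0 l := by rw [e1, e2, e]
        rw [eqi hpi hkn.le hln.le] at this
        omega) (by
        intro E hE'
        rcases hv _ hE' with h | ⟨i, x, hx, hne, h⟩
        · exact Or.inl (Sum.inr.inj h)
        · refine Or.inr ⟨?_, ?_⟩
          · show Sum.inr E ∈ vI n g
            rw [h]; exact mem_vI hx
          · rintro (rfl | h')
            · rw [← e1, eqi hpi hkn.le hx] at h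
              exact (hne h.1.symm).1 h.2.symm
            · have h'' : E = F' := h'
              rw [h'', ← e2, eqi hpi hln.le hx] at h
              exact (hne h.1.symm).2 h.2.symm)
    omega

end Pool.Agent.H60.ER3
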