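import Pool.Agent.H60.ER3.PBase

/-!
# MP_816b90_co: two touching roots in the interior of different rungs
-/

set_option autoImplicit false

namespace Pool.Agent.H60.ER3

open Pool.Agent.H48.ER Pool.Agent.H52.ER2 Pool.Agent.H66.ER2 Pool.Agent.H20.ER3

theorem pf_Q2 (hPX : U_PX) (hPY : U_PY) (hPZ : U_PZ) (hGP : U_GP) (hGU : U_GU) : U_Q2 := by
  intro V _ G R F F' n g k l hH h hk hkn hl hln e1 e2 ht
  have hpi := h.pi
  have d01 : (0 : Fin 3) ≠ 1 := by decide
  have d02 : (0 : Fin 3) ≠ 2 := by decide
  have d12 : (1 : Fin 3) ≠ 2 := by decide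
  have d10 : (1 : Fin 3) ≠ 0 := by decide
  have o0 := h.odd 0
  have o1 := h.odd 1
  have o2 := h.odd 2
  -- adjacency of the two roots to the vertices of the prism
  have a00 : ∀ x, x ≤ n 0 → ((MG G R).Adj (g 0 k) (g 0 x) ↔ k + 1 = x ∨ x + 1 = k) := by
    intro x hx
    rw [hpi.adj 0 0 k x hkn.le hx]
    constructor
    · rintro (⟨_, h⟩ | ⟨h, _⟩)
      · exact h
      · exact (h rfl).elim
    · intro h; exact Or.inl ⟨rfl, h⟩
  have a11 : ∀ x, x ≤ n 1 → ((MG G R).Adj (g 1 l) (g 1 x) ↔ l + 1 = x ∨ x + 1 = l) := by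
    intro x hx
    rw [hpi.adj 1 1 l x hln.le hx]
    constructor
    · rintro (⟨_, h⟩ | ⟨h, _⟩)
      · exact h
      · exact (h rfl).elim
    · intro h; exact Or.inl ⟨rfl, h⟩
  have a0 : ∀ j x, j ≠ 0 → x ≤ n j → ¬ (MG G R).Adj (g 0 k) (g j x) := by
    intro j x hj hx ha
    rw [hpi.adj 0 j k x hkn.le hx] at ha
    rcases ha with ⟨h, _⟩ | ⟨_, ⟨h, _⟩ | ⟨h, _⟩⟩
    · exact hj h.symm
    · omega
    · omega
  have a1 : ∀ j x, j ≠ 1 → x ≤ n j → ¬ (MG G R).Adj (g 1 l) (g j x) := by
    intro j x hj hx ha
    rw [hpi.adj 1 j l x hln.le hx] at ha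
    rcases ha with ⟨h, _⟩ | ⟨_, ⟨h, _⟩ | ⟨h, _⟩⟩
    · exact hj h.symm
    · omega
    · omega
  -- (1)
  have p1 : Even (k + l) := by
    have hip := hPZ _ (MG G R) n g 0 1 2 (k - 1) (l + 1) hpi d01 d02 d12 (by omega) (by omega)
      (by omega)
    have := gp_use hGP hGU hH h hkn.le hln.le e1 e2 ht hip
      (Set.union_subset (Set.union_subset (seg_sub_vI (by omega)) (seg_sub_vI le_rfl))
        (seg_sub_vI le_rfl)) (by omega) (by
        rintro w ((⟨x, _, hx, rfl⟩ | ⟨x, _, hx, rfl⟩) | ⟨x, hx0, hx, rfl⟩)
        · rw [a00 x (by omega), eqi hpi (by omega) (by omega), eqi hpi (by omega) (by omega)]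
          constructor
          · rintro (h | h)
            · exact Or.inl ⟨rfl, by omega⟩
            · exact absurd h (a1 0 x d01 (by omega))
          · rintro (⟨_, h⟩ | ⟨h, _⟩)
            · exact Or.inl (by omega)
            · exact absurd h d01
        · rw [eqi hpi (by omega) (by omega), eqi hpi (by omega) (by omega)]
          constructor
          · rintro (h | h)
            · exact absurd h (a0 2 x d02.symm (by omega))
            · exact absurd h (a1 2 x d12.symm (by omega))
          · rintro (⟨h, _⟩ | ⟨h, _⟩)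
            · exact absurd h.symm d02
            · exact absurd h.symm d12
        · rw [a11 x (by omega), eqi hpi (by omega) (by omega), eqi hpi (by omega) (by omega)]
          constructor
          · rintro (h | h)
            · exact absurd h (a0 1 x d10 (by omega))
            · exact Or.inr ⟨rfl, by omega⟩
          · rintro (⟨h, _⟩ | ⟨_, h⟩)
            · exact absurd h d10
            · exact Or.inr (by omega))
    rw [Nat.even_iff] at this ⊢
    rw [Nat.odd_iff] at o1 o2
    omega
  -- (2)
  have p2 : k = 1 ∧ l = 1 := by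
    by_contra hkl
    have hip := hPX _ (MG G R) n g 0 1 (k - 1) (l - 1) hpi d01 (by omega) (by omega) (by omega)
    have := gp_use hGP hGU hH h hkn.le hln.le e1 e2 ht hip
      (Set.union_subset (seg_sub_vI (by omega)) (seg_sub_vI (by omega))) (by omega) (by
        rintro w (⟨x, _, hx, rfl⟩ | ⟨x, hx0, hx, rfl⟩)
        · rw [a00 x (by omega), eqi hpi (by omega) (by omega), eqi hpi (by omega) (by omega)]
          constructor
          · rintro (h | h)
            · exact Or.inl ⟨rfl, by omega⟩
            · exact absurd h (a1 0 x d01 (by omega))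
          · rintro (⟨_, h⟩ | ⟨h, _⟩)
            · exact Or.inl (by omega)
            · exact absurd h d01
        · rw [a11 x (by omega), eqi hpi (by omega) (by omega), eqi hpi (by omega) (by omega)]
          constructor
          · rintro (h | h)
            · exact absurd h (a0 1 x d10 (by omega))
            · exact Or.inr ⟨rfl, by omega⟩
          · rintro (⟨h, _⟩ | ⟨_, h⟩)
            · exact absurd h d10
            · exact Or.inr (by omega))
    rw [Nat.even_iff] at this p1
    omega
  obtain ⟨hk1, hl1⟩ := p2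
  -- (3)
  have hip := hPY _ (MG G R) n g 0 1 (k + 1) (l + 1) hpi d01 (by omega) (by omega) (by omega)
  rw [Nat.odd_iff] at o0 o1
  have := gp_use hGP hGU hH h hkn.le hln.le e1 e2 ht hip
    (Set.union_subset (seg_sub_vI le_rfl) (seg_sub_vI le_rfl)) (by omega) (by
      rintro w (⟨x, hx0, hx, rfl⟩ | ⟨x, hx0, hx, rfl⟩)
      · rw [a00 x (by omega), eqi hpi (by omega) (by omega), eqi hpi (by omega) (by omega)]
        constructor
        · rintro (h | h)
          · exact Or.inl ⟨rfl, by omega⟩
          · exact absurd h (a1 0 x d01 (by omega))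
        · rintro (⟨_, h⟩ | ⟨h, _⟩)
          · exact Or.inl (by omega)
          · exact absurd h d01
      · rw [a11 x (by omega), eqi hpi (by omega) (by omega), eqi hpi (by omega) (by omega)]
        constructor
        · rintro (h | h)
          · exact absurd h (a0 1 x d10 (by omega))
          · exact Or.inr ⟨rfl, by omega⟩
        · rintro (⟨h, _⟩ | ⟨_, h⟩)
          · exact absurd h d10
          · exact Or.inr (by omega))
  rw [Nat.even_iff] at this
  omega

end Pool.Agent.H60.ER3
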