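import Pool.Agent.H60.ER3.PAdj

/-!
# MP_816b90_co: two touching roots, a corner and the interior of another rung
-/

set_option autoImplicit false

namespace Pool.Agent.H60.ER3

open Pool.Agent.H48.ER Pool.Agent.H52.ER2 Pool.Agent.H66.ER2 Pool.Agent.H20.ER3

theorem Int.symm {V : Type} {G : SimpleGraph V} {F : Set V} {m : ℕ} {c d : V}
    (h : Pool.Agent.H20.ER3.Int G F m c d) : Pool.Agent.H20.ER3.Int G F m d c := by
  obtain ⟨h1, h2, h3, h4⟩ := h
  refine ⟨h1, h3, h2, ?_⟩
  rw [Set.insert_comm]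
  exact h4.rev

/-- the path from `a3` to `y` through the root of a corner -/
theorem Cr.int3 {V : Type} {G : SimpleGraph V} {R F : Set V} {m : ℕ} {f f' y a2 a3 : V}
    (h : Cr G F m f f' y a2 a3) (hF : F ⊆ R) (hy : y ∉ R) (ha : a3 ∉ R) (hya : a3 ≠ y)
    (hna : ¬ G.Adj a3 y) : Pool.Agent.H20.ER3.Int G F (m + 2) a3 y := by
  refine ⟨by omega, fun h => ha (hF h), fun h => hy (hF h), ?_⟩
  have h1 := h.ip.cons (fun h => hy (hF h)) h.hy
  have h2 := h1.snoc (u := a3) (by
    rintro (h | h)
    · exact hya h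
    · exact ha (hF h)) (by
    rintro w (rfl | hw)
    · constructor
      · intro h; exact absurd h hna
      · intro e
        exfalso
        apply hy
        rw [e]
        exact hF h.ip.right_mem
    · exact h.h3 w hw)
  exact h2.rev

theorem pf_Q4 (hQA : U_QA) (hQC : U_QC) (hQE : U_QE) (hPY : U_PY) (hGP : U_GP) (hGU : U_GU)
    (hCL : U_CL) : U_Q4 := by
  intro V _ G R F F' n g k hE hA hH h hk hkn e1 e2 ht
  have hpi := h.pi
  have d01 : (0 : Fin 3) ≠ 1 := by decide
  have d02 : (0 : Fin 3) ≠ 2 := by decide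
  have d12 : (1 : Fin 3) ≠ 2 := by decide
  have d10 : (1 : Fin 3) ≠ 0 := by decide
  have d20 : (2 : Fin 3) ≠ 0 := by decide
  have d21 : (2 : Fin 3) ≠ 1 := by decide
  have p0 := hpi.pos 0
  have p2 := hpi.pos 2
  have o0 := h.odd 0
  have o1 := h.odd 1
  have o2 := h.odd 2
  rw [Nat.odd_iff] at o0 o1 o2
  obtain ⟨hF, hC⟩ := root_pi hpi (Nat.zero_le _) e1
  obtain ⟨hF', hC'⟩ := root_pi hpi hkn.le e2
  -- (1)
  have q1 : k % 2 = 0 := by
    have hip := hPY _ (MG G R) n g 2 1 0 (k + 1) hpi d21 (by omega) (by omega) (by omega)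
    have := gp_use hGP hGU hH h (Nat.zero_le _) hkn.le e1 e2 ht hip
      (Set.union_subset (seg_sub_vI le_rfl) (seg_sub_vI le_rfl)) (by omega) (by
        rintro w (⟨x, hx0, hx, rfl⟩ | ⟨x, hx0, hx, rfl⟩)
        · rw [adj_diff hpi d02 (by omega) hx, adj_diff hpi d12 hkn.le hx,
            eqi hpi hx (by omega), eqi hpi hx (by omega)]
          constructor
          · rintro (h | h)
            · exact Or.inl ⟨rfl, by omega⟩
            · omega
          · rintro (⟨_, h⟩ | ⟨h, _⟩)
            · exact Or.inl (by omega)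
            · exact absurd h d21
        · rw [adj_diff hpi d01 (by omega) hx, adj_same hpi hkn.le hx,
            eqi hpi hx (by omega), eqi hpi hx (by omega)]
          constructor
          · rintro (h | h)
            · omega
            · exact Or.inr ⟨rfl, by omega⟩
          · rintro (⟨h, _⟩ | ⟨_, h⟩)
            · exact absurd h d12
            · exact Or.inr (by omega))
    rw [Nat.even_iff] at this
    omega
  -- (2)
  have q2 : n 0 = 1 ∧ n 1 = k + 1 := by
    by_contra hne
    have hip := hPY _ (MG G R) n g 0 1 1 (k + 1) hpi d01 (by omega) (by omega) (by omega)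
    have := gp_use hGP hGU hH h (Nat.zero_le _) hkn.le e1 e2 ht hip
      (Set.union_subset (seg_sub_vI le_rfl) (seg_sub_vI le_rfl)) (by omega) (by
        rintro w (⟨x, hx0, hx, rfl⟩ | ⟨x, hx0, hx, rfl⟩)
        · rw [adj_same hpi (by omega) hx, adj_diff hpi d10 hkn.le hx,
            eqi hpi hx (by omega), eqi hpi hx (by omega)]
          constructor
          · rintro (h | h)
            · exact Or.inl ⟨rfl, by omega⟩
            · omega
          · rintro (⟨_, h⟩ | ⟨h, _⟩)
            · exact Or.inl (by omega)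
            · exact absurd h d01
        · rw [adj_diff hpi d01 (by omega) hx, adj_same hpi hkn.le hx,
            eqi hpi hx (by omega), eqi hpi hx (by omega)]
          constructor
          · rintro (h | h)
            · omega
            · exact Or.inr ⟨rfl, by omega⟩
          · rintro (⟨h, _⟩ | ⟨_, h⟩)
            · exact absurd h d10
            · exact Or.inr (by omega))
    rw [Nat.even_iff] at this
    omega
  obtain ⟨q2, q3⟩ := q2
  -- (3)
  obtain ⟨y, a2, a3, f, f', m, r1, r2, r3, s1, s2, s3, hcr⟩ := hQC V False G R F n g hE hH h e1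
  have hsw := (hQE V False G R n g h).1 ![1, 0, 2] (by decide)
  obtain ⟨d', d, m', t1, t2, t3, t4, t5, _⟩ := hQA V False G R F' _ _ k hE hsw hk hkn e2
  have t1' : g 1 (k - 1) = Sum.inl d' := t1
  have t2' : g 1 (k + 1) = Sum.inl d := t2
  have adjl : ∀ i j a b u v, i ≠ j → a ≤ n i → b ≤ n j → g i a = Sum.inl u → g j b = Sum.inl v →
      (G.Adj u v ↔ (a = 0 ∧ b = 0) ∨ (a = n i ∧ b = n j)) := by
    intro i j a b u v hij ha hb hu hv
    rw [← adj_diff hpi hij ha hb, hu, hv]
    exact mg_ll.symm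
  have hna : ¬ G.Adj a3 y := by
    rw [adjl _ _ _ _ _ _ d20 (by omega) (by omega) r3 r1]; omega
  have hI : Pool.Agent.H20.ER3.Int G F (m + 2) a3 y := by
    refine Cr.int3 hcr hF s1.1 s3.1 ?_ hna
    intro e
    have : g 2 0 = g 0 1 := by rw [r3, r1, e]
    rw [eqi hpi (by omega) (by omega)] at this
    exact d20 this.1
  refine hCL V G R F F' (m + 2) m' a3 y d d' hE hA hF hF' s3.1 s1.1 t4.1 t3.1 hI
    (Int.symm t5) ?_ ?_ hna ?_ ?_ ?_ ?_ ?_ ?_ ht
  · exact (adjl _ _ _ _ _ _ d01 (by omega) (by omega) r1 t2').2 (Or.inr (by omega))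
  · intro e
    have : g 2 0 = g 1 (k - 1) := by rw [r3, t1', e]
    rw [eqi hpi (by omega) (by omega)] at this
    exact d21 this.1
  · rw [adjl _ _ _ _ _ _ d21 (by omega) (by omega) r3 t2']; omega
  · rw [adjl _ _ _ _ _ _ d21 (by omega) (by omega) r3 t1']; omega
  · rw [adjl _ _ _ _ _ _ d01 (by omega) (by omega) r1 t1']; omega
  · have : ¬ (MG G R).Adj (g 1 (k + 1)) (g 1 (k - 1)) := by
      rw [adj_same hpi (by omega) (by omega)]; omega
    rw [t1', t2'] at this
    exact this
  · intro w hw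
    refine ⟨no_nb hF hC t4.1 ?_ w hw, no_nb hF hC t3.1 ?_ w hw⟩
    · rw [← t2', ← e1, adj_diff hpi d01 (by omega) (by omega)]; omega
    · rw [← t1', ← e1, adj_diff hpi d01 (by omega) (by omega)]; omega
  · intro w hw
    refine ⟨no_nb hF' hC' s3.1 ?_ w hw, no_nb hF' hC' s1.1 ?_ w hw⟩
    · rw [← r3, ← e2]; exact adj_int hpi d12 hk hkn (by omega)
    · rw [← r1, ← e2]; exact adj_int hpi d10 hk hkn (by omega)

end Pool.Agent.H60.ER3
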